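import Mathlib
import Pool.Agent.H.MP_8b3519_lc.B

namespace Pool.Agent.Results.MP_8b3519_lc.Main

open Pool.Agent.H.MP_8b3519_lc

theorem result : ∃ (L₁ L₂ : FirstOrder.Language.{0, 0}) (C : Set (Mod L₁)) (D : Set (Mod L₂)),
    Countable L₁.Symbols ∧ Countable L₂.Symbols ∧ BorelComplete C ∧ BorelComplete D ∧
      ¬ GrpdRed C D :=
  ⟨LL, LL, _, _, inferInstance, inferInstance, bc_univ, bc_DD, nored⟩

end Pool.Agent.Results.MP_8b3519_lc.Main
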